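import Pool.Agent.Helper10.RZ.Palm

/-!
# NS: from measure to ordinates, with all moments (Hoelder)
-/

set_option autoImplicit false
open MeasureTheory Set Filter Topology
open Pool.Agent.Helper93.UG (zc sp)
open Pool.Agent.Helper56.UG (zc_mono zc_union)
open Pool.Agent.Helper10.RZ

namespace Pool.Agent.Helper10.NS

/-- sum of the `n`-th powers over the cells -/
lemma pow_cells (n : ℕ) {T s : ℝ} (hs : 0 < s) (N : ℕ) (h1 : T / 2 ≤ T - s) (h2 : T + ((N : ℝ) - 1) * s ≤ 3 * T)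
    (hint : IntegrableOn (fun t => (zc (Ico t (t + 2 * s)) : ℝ) ^ n) (Icc (T / 2) (3 * T))) :
    s * ∑ k ∈ Finset.range N, (zc (cel T s k) : ℝ) ^ n ≤ ∫ t in Icc (T / 2) (3 * T), (zc (Ico t (t + 2 * s)) : ℝ) ^ n := by
  have hsub : ∀ k ∈ Finset.range N, Ico (T + ((k : ℝ) - 1) * s) (T + (k : ℝ) * s) ⊆ Icc (T / 2) (3 * T) := by
    intro k hk x hx
    have h3 : (k : ℝ) + 1 ≤ N := by exact_mod_cast Finset.mem_range.1 hk
    have h4 : (0 : ℝ) ≤ k := Nat.cast_nonneg k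
    constructor
    · nlinarith [hx.1]
    · nlinarith [hx.2]
  have hterm : ∀ k ∈ Finset.range N, s * (zc (cel T s k) : ℝ) ^ n ≤
      ∫ t in Ico (T + ((k : ℝ) - 1) * s) (T + (k : ℝ) * s), (zc (Ico t (t + 2 * s)) : ℝ) ^ n := by
    intro k hk
    have hv : volume.real (Ico (T + ((k : ℝ) - 1) * s) (T + (k : ℝ) * s)) = s := by
      rw [Real.volume_real_Ico_of_le (by nlinarith)]
      ring
    have h3 : s * (zc (cel T s k) : ℝ) ^ n =
        ∫ t in Ico (T + ((k : ℝ) - 1) * s) (T + (k : ℝ) * s), (zc (cel T s k) : ℝ) ^ n := by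
      rw [setIntegral_const, hv, smul_eq_mul]
    rw [h3]
    refine setIntegral_mono_on (by simp [integrableOn_const_iff, Real.volume_Ico]) (hint.mono_set (hsub k hk)) measurableSet_Ico fun t ht => ?_
    have h5 : zc (cel T s k) ≤ zc (Ico t (t + 2 * s)) := by
      refine zc_mono (a := t) (b := t + 2 * s) (fun x hx => ⟨?_, ?_⟩) Ico_subset_Icc_self
      · exact ht.2.le.trans hx.1
      · have h6 := hx.2
        have h7 := ht.1
        nlinarith
    have h6 : (zc (cel T s k) : ℝ) ≤ zc (Ico t (t + 2 * s)) := by exact_mod_cast h5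
    exact pow_le_pow_left₀ (Nat.cast_nonneg _) h6 n
  rw [Finset.mul_sum]
  refine (Finset.sum_le_sum hterm).trans ?_
  rw [← integral_biUnion_finset]
  · refine setIntegral_mono_set hint (ae_of_all _ fun t => by positivity) ?_
    exact (iUnion₂_subset hsub).eventuallyLE
  · exact fun k _ => measurableSet_Ico
  · intro i _ j _ hij
    have h3 : ∀ i j : ℕ, i < j → Disjoint (Ico (T + ((i : ℝ) - 1) * s) (T + (i : ℝ) * s)) (Ico (T + ((j : ℝ) - 1) * s) (T + (j : ℝ) * s)) := by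
      intro i j h
      rw [Set.disjoint_left]
      rintro x ⟨_, h1⟩ ⟨h2, _⟩
      have h3 : (i : ℝ) + 1 ≤ j := by exact_mod_cast h
      nlinarith
    rcases lt_or_gt_of_ne hij with h | h
    · exact h3 i j h
    · exact (h3 j i h).symm
  · exact fun k hk => hint.mono_set (hsub k hk)

/-- deterministic form -/
lemma palmq_det (n : ℕ) {T s : ℝ} (hs : 0 < s) (N : ℕ) (h1 : T / 2 ≤ T - s) (h2 : T + ((N : ℝ) - 1) * s ≤ 3 * T)
    (h3 : 2 * T < T + N * s)
    (hint : IntegrableOn (fun t => (zc (Ico t (t + 2 * s)) : ℝ) ^ (n + 1)) (Icc (T / 2) (3 * T))) {S : ℝ}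
    (hS : ∫ t in Icc (T / 2) (3 * T), (zc (Ico t (t + 2 * s)) : ℝ) ^ (n + 1) ≤ S) (B : Set ℝ) {m : ℝ} (hm : 0 ≤ m)
    (hB : volume B ≤ ENNReal.ofReal m) :
    ((zc {g : ℝ | T ≤ g ∧ g ≤ 2 * T ∧ Icc g (g + s) ⊆ B} : ℝ) * s) ^ (n + 1) ≤ (2 * m) ^ n * S := by
  classical
  set G : Set ℝ := {g : ℝ | T ≤ g ∧ g ≤ 2 * T ∧ Icc g (g + s) ⊆ B} with hG
  have hGs : G ⊆ Ico T (T + N * s) := fun g hg => ⟨hg.1, hg.2.1.trans_lt h3⟩
  rw [zc_cells hs G N hGs, Nat.cast_sum]
  set K : Finset ℕ := (Finset.range N).filter fun k => ∃ g ∈ cel T s k, Icc g (g + s) ⊆ B with hK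
  have e1 : ∀ k ∈ Finset.range N, (zc (G ∩ cel T s k) : ℝ) ≤ if k ∈ K then (zc (cel T s k) : ℝ) else 0 := by
    intro k hk
    split_ifs with hkK
    · have : zc (G ∩ cel T s k) ≤ zc (cel T s k) :=
        zc_mono (a := T + k * s) (b := T + (k + 1) * s) inter_subset_right Ico_subset_Icc_self
      exact_mod_cast this
    · have h0 : G ∩ cel T s k = ∅ := by
        rw [Set.eq_empty_iff_forall_notMem]
        rintro g ⟨hg, hgc⟩
        exact hkK (Finset.mem_filter.2 ⟨hk, g, hgc, hg.2.2⟩)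
      rw [h0]
      unfold zc
      simp
  have e2 : ∑ k ∈ Finset.range N, (if k ∈ K then (zc (cel T s k) : ℝ) else 0) = ∑ k ∈ K, (zc (cel T s k) : ℝ) := by
    rw [← Finset.sum_filter]
    congr 1
    ext k
    rw [Finset.mem_filter]
    exact ⟨fun h => h.2, fun h => ⟨(Finset.mem_filter.1 h).1, h⟩⟩
  have e3 : ∑ k ∈ Finset.range N, (zc (G ∩ cel T s k) : ℝ) ≤ ∑ k ∈ K, (zc (cel T s k) : ℝ) :=
    (Finset.sum_le_sum e1).trans e2.le
  have hsq := pow_cells (n + 1) hs N h1 h2 hint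
  have hbad := bad_cells hs B K (fun k hk => (Finset.mem_filter.1 hk).2) hm hB
  have h5 : (∑ k ∈ K, (zc (cel T s k) : ℝ)) ^ (n + 1) ≤ (K.card : ℝ) ^ n * ∑ k ∈ K, (zc (cel T s k) : ℝ) ^ (n + 1) :=
    pow_sum_le_card_mul_sum_pow (fun _ _ => Nat.cast_nonneg _) n
  have h6 : ∑ k ∈ K, (zc (cel T s k) : ℝ) ^ (n + 1) ≤ ∑ k ∈ Finset.range N, (zc (cel T s k) : ℝ) ^ (n + 1) :=
    Finset.sum_le_sum_of_subset_of_nonneg (Finset.filter_subset _ _) fun _ _ _ => by positivity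
  calc ((∑ k ∈ Finset.range N, (zc (G ∩ cel T s k) : ℝ)) * s) ^ (n + 1)
      ≤ ((∑ k ∈ K, (zc (cel T s k) : ℝ)) * s) ^ (n + 1) := by
        refine pow_le_pow_left₀ (mul_nonneg (Finset.sum_nonneg fun _ _ => Nat.cast_nonneg _) hs.le) ?_ _
        exact mul_le_mul_of_nonneg_right e3 hs.le
    _ = (∑ k ∈ K, (zc (cel T s k) : ℝ)) ^ (n + 1) * s ^ (n + 1) := mul_pow _ _ _
    _ ≤ ((K.card : ℝ) ^ n * ∑ k ∈ Finset.range N, (zc (cel T s k) : ℝ) ^ (n + 1)) * s ^ (n + 1) := by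
        refine mul_le_mul_of_nonneg_right (h5.trans ?_) (by positivity)
        exact mul_le_mul_of_nonneg_left h6 (by positivity)
    _ = (K.card * s) ^ n * (s * ∑ k ∈ Finset.range N, (zc (cel T s k) : ℝ) ^ (n + 1)) := by
        rw [mul_pow, pow_succ]
        ring
    _ ≤ (2 * m) ^ n * S := by
        refine mul_le_mul (pow_le_pow_left₀ (by positivity) hbad n) (hsq.trans hS) ?_ (by positivity)
        exact mul_nonneg hs.le (Finset.sum_nonneg fun _ _ => by positivity)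

/-- from the moments of order `2 q` of the number of the zeros in a window: exponent `1 - 1 / (2 q)` -/
theorem palmq_of (tx1 : Pool.Agent.Helper93.UX.TX1) (q : ℕ) (hq : 1 ≤ q) : ∃ C T₀ : ℝ, 0 < C ∧ ∀ T : ℝ, T₀ ≤ T →
    ∀ (B : Set ℝ) (v : ℝ), 0 ≤ v → volume B ≤ ENNReal.ofReal (v * T) →
    (zc {g : ℝ | T ≤ g ∧ g ≤ 2 * T ∧ Icc g (g + sp T) ⊆ B} : ℝ) ≤
      C * v ^ (1 - 1 / (2 * q : ℝ)) * (T * Real.log T) := by
  obtain ⟨C, d, T₀, hC, hd, h⟩ := tx1 q
  have hlim : Tendsto (fun T : ℝ => Real.log T / Real.log (Real.log T)) atTop atTop := by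
    have h1 : Tendsto (fun x : ℝ => x / Real.log x) atTop atTop := by
      have h2 : Tendsto (fun x : ℝ => Real.log x / x) atTop (𝓝 0) := by
        simpa using Real.tendsto_pow_log_div_mul_add_atTop 1 0 1 one_ne_zero
      have h3 : Tendsto (fun x : ℝ => Real.log x / x) atTop (𝓝[>] 0) := by
        refine tendsto_nhdsWithin_iff.2 ⟨h2, ?_⟩
        filter_upwards [eventually_gt_atTop 1] with x hx
        exact div_pos (Real.log_pos hx) (by linarith)
      have h4 := h3.inv_tendsto_nhdsGT_zero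
      refine h4.congr fun x => ?_
      rw [Pi.inv_apply, inv_div]
    exact h1.comp Real.tendsto_log_atTop
  obtain ⟨T₁, hT₁⟩ := (eventually_atTop.1 (hlim.eventually_ge_atTop (2 / d)))
  obtain ⟨n, hn⟩ : ∃ n, 2 * q = n + 1 := ⟨2 * q - 1, by omega⟩
  set D : ℝ := 2 ^ n * (C * Real.log 4 ^ q + 5 * 2 ^ (2 * q)) with hD
  have hlog4 : 0 < Real.log 4 := Real.log_pos (by norm_num)
  have hDpos : 0 < D := by positivity
  refine ⟨(2 ^ n * D) ^ (1 / (2 * q : ℝ)), max (max T₀ T₁) (Real.exp 8), Real.rpow_pos_of_pos (by positivity) _, ?_⟩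
  intro T hT B v hv hB
  have hT0 : T₀ ≤ T := ((le_max_left _ _).trans (le_max_left _ _)).trans hT
  have hT1 : T₁ ≤ T := ((le_max_right _ _).trans (le_max_left _ _)).trans hT
  have hT2 : Real.exp 8 ≤ T := (le_max_right _ _).trans hT
  have hTp : 8 ≤ T := by
    have := Real.add_one_le_exp (8 : ℝ)
    linarith
  have hlog : 8 ≤ Real.log T := by
    rw [Real.le_log_iff_exp_le (by linarith)]
    exact hT2
  have hs : 0 < sp T := by
    unfold sp
    have := Real.pi_pos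
    positivity
  have hs1 : sp T ≤ 1 := by
    unfold sp
    rw [div_le_one (by linarith)]
    have := Real.pi_lt_four
    linarith
  have hc : (2 : ℝ) ≤ d * (Real.log T / Real.log (Real.log T)) := by
    have h1 := hT₁ T hT1
    rw [div_le_iff₀ hd] at h1
    linarith
  obtain ⟨hi, hI⟩ := h T hT0 2 (by norm_num) hc
  have hmeas := Pool.Agent.Helper24.UX.zc_meas' (2 * sp T)
  have hle : ∀ t : ℝ, (zc (Ico t (t + 2 * sp T)) : ℝ) ^ (2 * q) ≤
      2 ^ n * (|(zc (Ico t (t + 2 * sp T)) : ℝ) - 2| ^ (2 * q) + 2 ^ (2 * q)) := by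
    intro t
    have h1 : (zc (Ico t (t + 2 * sp T)) : ℝ) ≤ |(zc (Ico t (t + 2 * sp T)) : ℝ) - 2| + 2 := by
      have := le_abs_self ((zc (Ico t (t + 2 * sp T)) : ℝ) - 2)
      linarith
    refine (pow_le_pow_left₀ (Nat.cast_nonneg _) h1 _).trans ?_
    have h2 := add_pow_le (abs_nonneg ((zc (Ico t (t + 2 * sp T)) : ℝ) - 2)) (by norm_num : (0 : ℝ) ≤ 2) (2 * q)
    rwa [show 2 * q - 1 = n by omega] at h2
  have hg : IntegrableOn (fun t => 2 ^ n * (|(zc (Ico t (t + 2 * sp T)) : ℝ) - 2| ^ (2 * q) + 2 ^ (2 * q)))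
      (Icc (T / 2) (3 * T)) := by
    refine Integrable.const_mul (hi.add ?_) _
    exact integrableOn_const (by rw [Real.volume_Icc]; exact ENNReal.ofReal_ne_top)
  have hint : IntegrableOn (fun t => (zc (Ico t (t + 2 * sp T)) : ℝ) ^ (2 * q)) (Icc (T / 2) (3 * T)) := by
    refine hg.mono' (hmeas.pow_const (2 * q)).aestronglyMeasurable (ae_of_all _ fun t => ?_)
    rw [Real.norm_eq_abs, abs_of_nonneg (by positivity)]
    exact hle t
  have hS : ∫ t in Icc (T / 2) (3 * T), (zc (Ico t (t + 2 * sp T)) : ℝ) ^ (2 * q) ≤ D * T := by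
    calc ∫ t in Icc (T / 2) (3 * T), (zc (Ico t (t + 2 * sp T)) : ℝ) ^ (2 * q)
        ≤ ∫ t in Icc (T / 2) (3 * T), 2 ^ n * (|(zc (Ico t (t + 2 * sp T)) : ℝ) - 2| ^ (2 * q) + 2 ^ (2 * q)) :=
          setIntegral_mono hint hg hle
      _ = 2 ^ n * ((∫ t in Icc (T / 2) (3 * T), |(zc (Ico t (t + 2 * sp T)) : ℝ) - 2| ^ (2 * q)) +
            2 ^ (2 * q) * (3 * T - T / 2)) := by
          rw [integral_const_mul, integral_add hi (integrableOn_const (by rw [Real.volume_Icc]; exact ENNReal.ofReal_ne_top)),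
            setIntegral_const, Real.volume_real_Icc_of_le (by linarith), smul_eq_mul]
          ring
      _ ≤ 2 ^ n * ((C * Real.log (2 + 2) ^ q * T) + 2 ^ (2 * q) * (5 * T)) := by
          refine mul_le_mul_of_nonneg_left ?_ (by positivity)
          refine add_le_add hI (mul_le_mul_of_nonneg_left (by linarith) (by positivity))
      _ = D * T := by
          rw [hD]
          norm_num
          ring
  set N : ℕ := ⌊T / sp T⌋₊ + 1 with hN
  have hN1 : T / sp T < N := by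
    rw [hN]
    push_cast
    exact Nat.lt_floor_add_one _
  have hN2 : (N : ℝ) - 1 ≤ T / sp T := by
    rw [hN]
    push_cast
    have := Nat.floor_le (div_nonneg (by linarith : (0:ℝ) ≤ T) hs.le)
    linarith
  have hN1' : T < N * sp T := by rwa [div_lt_iff₀ hs] at hN1
  have hN2' : ((N : ℝ) - 1) * sp T ≤ T := by rwa [le_div_iff₀ hs] at hN2
  have hfin := palmq_det n (T := T) (S := D * T) (m := v * T) hs N (by linarith) (by linarith) (by linarith)
    (by rw [← hn]; exact hint) (by rw [← hn]; exact hS) B (mul_nonneg hv (by linarith)) hB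
  rw [← hn] at hfin
  have hT' : 0 ≤ T := by linarith
  have hq0 : (0 : ℝ) < 2 * q := by
    have : (1 : ℝ) ≤ q := by exact_mod_cast hq
    linarith
  have hqn : (2 * q : ℝ) = n + 1 := by exact_mod_cast hn
  set A : ℝ := (2 ^ n * D) ^ (1 / (2 * q : ℝ)) with hA
  have hA0 : 0 ≤ A := Real.rpow_nonneg (by positivity) _
  have hv0 : 0 ≤ v ^ (1 - 1 / (2 * q : ℝ)) := Real.rpow_nonneg hv _
  have e1 : A ^ (2 * q) = 2 ^ n * D := by
    rw [hA, ← Real.rpow_natCast, ← Real.rpow_mul (by positivity)]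
    push_cast
    rw [one_div, inv_mul_cancel₀ hq0.ne', Real.rpow_one]
  have e2 : (v ^ (1 - 1 / (2 * q : ℝ))) ^ (2 * q) = v ^ n := by
    rw [← Real.rpow_natCast, ← Real.rpow_mul hv, ← Real.rpow_natCast v n]
    congr 1
    push_cast
    rw [sub_mul, one_mul, one_div, inv_mul_cancel₀ hq0.ne', hqn]
    ring
  have e3 : (zc {g : ℝ | T ≤ g ∧ g ≤ 2 * T ∧ Icc g (g + sp T) ⊆ B} : ℝ) * sp T ≤
      A * v ^ (1 - 1 / (2 * q : ℝ)) * T := by
    refine le_of_pow_le_pow_left₀ (n := 2 * q) (by omega) (by positivity) (hfin.trans (le_of_eq ?_))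
    rw [mul_pow (A * v ^ (1 - 1 / (2 * q : ℝ))) T, mul_pow A, e1, e2, hn, pow_succ T]
    ring
  have e4 : 1 / sp T ≤ Real.log T := by
    unfold sp
    rw [one_div_div, div_le_iff₀ (by have := Real.pi_pos; positivity)]
    have := Real.pi_gt_three
    nlinarith
  calc (zc {g : ℝ | T ≤ g ∧ g ≤ 2 * T ∧ Icc g (g + sp T) ⊆ B} : ℝ)
      = (zc {g : ℝ | T ≤ g ∧ g ≤ 2 * T ∧ Icc g (g + sp T) ⊆ B} : ℝ) * sp T * (1 / sp T) := by
        field_simp
    _ ≤ A * v ^ (1 - 1 / (2 * q : ℝ)) * T * (1 / sp T) := mul_le_mul_of_nonneg_right e3 (by positivity)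
    _ ≤ A * v ^ (1 - 1 / (2 * q : ℝ)) * T * Real.log T := mul_le_mul_of_nonneg_left e4 (by positivity)
    _ = A * v ^ (1 - 1 / (2 * q : ℝ)) * (T * Real.log T) := by ring

end Pool.Agent.Helper10.NS
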